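import Pool.Agent.K.MP_ed9a6e_lc.C1

set_option autoImplicit false

open FirstOrder FirstOrder.Language

/-- For every positive `ε`, squaring restricted to a set missing at most `C N^ε` numbers below
`N` is definable without parameters from successor and coprimality. -/
theorem Pool.Agent.Results.MP_ed9a6e_lc.Sparse.result :
    ∃ (L : FirstOrder.Language.{0, 0}) (_i : L.Structure ℕ),
      (∀ (n : ℕ) (f : L.Functions n), ∃ i : Fin n,
        ∀ v : Fin n → ℕ, Structure.funMap f v = v i + 1) ∧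
      (∀ (n : ℕ) (r : L.Relations n), ∃ i j : Fin n,
        ∀ v : Fin n → ℕ, (Structure.RelMap r v ↔ Nat.Coprime (v i) (v j))) ∧
      ∀ ε : ℝ, 0 < ε → ∃ (X : Set ℕ) (C : ℝ),
        (∀ N : ℕ, (({x | x < N ∧ x ∉ X}.ncard : ℕ) : ℝ) ≤ C * (N : ℝ) ^ ε) ∧
        (∅ : Set ℕ).Definable L {v : Fin 2 → ℕ | v 0 ∈ X ∧ v 1 = v 0 ^ 2} :=
  Pool.Agent.P.MP_ed9a6e_lc.Sp.main
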