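import Pool.Agent.K.MP_ed9a6e_lc.C2

set_option autoImplicit false

/-- If `3 ≤ x < y` and every prime dividing `y + i` divides `x + i` for all `i < K`, then
`K ≤ C log x / log log x` with an absolute constant `C`. -/
theorem Pool.Agent.Results.MP_ed9a6e_lc.Window.result :
    ∃ C : ℝ, ∀ x y K : ℕ, 3 ≤ x → x < y →
      (∀ i < K, ∀ p : ℕ, p.Prime → p ∣ y + i → p ∣ x + i) →
      (K : ℝ) ≤ C * (Real.log x / Real.log (Real.log x)) :=
  Pool.Agent.P.MP_ed9a6e_lc.Win.main
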